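import Pool.Agent.helper64.QF.Spec

set_option autoImplicit false

namespace Pool.Agent.helper64.QF

open Metric MeasureTheory Set Filter Topology
open Pool.Agent.helper37.PR

/-- the composition of the short flows -/
noncomputable def GLU_phi {n : ℕ} (X : ℕ → E n → ℝ → E n) (τ : ℝ) : ℕ → E n → E n
  | 0 => fun z => z
  | (i + 1) => fun z => X i (GLU_phi X τ i z) τ

/-- the glued flow -/
noncomputable def GLU_v {n : ℕ} (A : E n →L[ℂ] E n) (N : ℕ) (τ : ℝ) (X : ℕ → E n → ℝ → E n) (z : E n) (t : ℝ) : E n :=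
  if t < N * τ then X ⌊t / τ⌋₊ (GLU_phi X τ ⌊t / τ⌋₊ z) (t - ⌊t / τ⌋₊ * τ)
  else fw A (GLU_phi X τ N z) (t - N * τ)

theorem GLU_floor {τ : ℝ} (hτ : 0 < τ) {t : ℝ} (ht : 0 ≤ t) :
    (⌊t / τ⌋₊ : ℝ) * τ ≤ t ∧ t < (⌊t / τ⌋₊ + 1 : ℝ) * τ := by
  have h1 : (⌊t / τ⌋₊ : ℝ) ≤ t / τ := Nat.floor_le (by positivity)
  have h2 : t / τ < (⌊t / τ⌋₊ : ℝ) + 1 := Nat.lt_floor_add_one _
  exact ⟨(le_div_iff₀ hτ).1 h1, (div_lt_iff₀ hτ).1 h2⟩

theorem GLU_floor_eq {τ : ℝ} (hτ : 0 < τ) {t : ℝ} {i : ℕ} (h1 : i * τ ≤ t) (h2 : t < (i + 1) * τ) :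
    ⌊t / τ⌋₊ = i := by
  rw [Nat.floor_eq_iff (by have : (0 : ℝ) ≤ i * τ := by positivity
                           exact div_nonneg (this.trans h1) hτ.le)]
  exact ⟨(le_div_iff₀ hτ).2 h1, (div_lt_iff₀ hτ).2 h2⟩

theorem GLU_floor_lt {τ : ℝ} (hτ : 0 < τ) {t : ℝ} (ht : 0 ≤ t) {N : ℕ} (h : t < N * τ) : ⌊t / τ⌋₊ < N := by
  have h1 := (GLU_floor hτ ht).1
  have h2 : (⌊t / τ⌋₊ : ℝ) * τ < N * τ := lt_of_le_of_lt h1 h
  have h3 : (⌊t / τ⌋₊ : ℝ) < N := lt_of_mul_lt_mul_right h2 hτ.le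
  exact_mod_cast h3

theorem GLU_phi_prop {n : ℕ} {A : E n →L[ℂ] E n} {N : ℕ} {τ : ℝ} (hτ : 0 < τ) {H : ℕ → E n → E n}
    {X : ℕ → E n → ℝ → E n} (h : ∀ i < N, IsCara A (H i) ∧ LFlow (H i) τ (X i)) :
    ∀ i ≤ N, (∀ z ∈ ball (0 : E n) 1, GLU_phi X τ i z ∈ ball (0 : E n) 1) ∧
      AnalyticOnNhd ℂ (GLU_phi X τ i) (ball (0 : E n) 1) := by
  intro i
  induction i with
  | zero =>
    intro _
    exact ⟨fun z hz => hz, analyticOnNhd_id⟩
  | succ i ih =>
    intro hi
    obtain ⟨h1, h2⟩ := ih (by omega)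
    have hL := (h i (by omega)).2
    have hτm : τ ∈ Icc (0 : ℝ) τ := ⟨hτ.le, le_rfl⟩
    constructor
    · intro z hz
      exact hL.mem _ (h1 z hz) τ hτm
    · exact (hL.an τ hτm).comp h2 (fun z hz => h1 z hz)

/-- the pieces -/
theorem GLU_piece {n : ℕ} {A : E n →L[ℂ] E n} {m κ C : ℝ} (hLIN : LIN_stmt) (hC : Cls A m κ C) {N : ℕ} {τ : ℝ} (hτ : 0 < τ)
    {H : ℕ → E n → E n} {X : ℕ → E n → ℝ → E n} (h : ∀ i < N, IsCara A (H i) ∧ LFlow (H i) τ (X i))
    {z : E n} (hz : z ∈ ball (0 : E n) 1) {i : ℕ} (hi : i < N) {t : ℝ} (h1 : i * τ ≤ t) (h2 : t ≤ (i + 1) * τ) :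
    GLU_v A N τ X z t = X i (GLU_phi X τ i z) (t - i * τ) := by
  have hiN : (i : ℝ) + 1 ≤ N := by exact_mod_cast hi
  rcases lt_or_eq_of_le h2 with h3 | h3
  · have h4 := GLU_floor_eq hτ h1 h3
    have h5 : t < N * τ := lt_of_lt_of_le h3 (mul_le_mul_of_nonneg_right hiN hτ.le)
    unfold GLU_v
    rw [if_pos h5, h4]
  · have e1 : t - i * τ = τ := by rw [h3]; ring
    rw [e1]
    rcases Nat.lt_or_ge (i + 1) N with h6 | h6
    · have h7 : ⌊t / τ⌋₊ = i + 1 := by
        apply GLU_floor_eq hτ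
        · push_cast; exact h3.ge
        · push_cast; rw [h3]; nlinarith
      have hiN' : ((i : ℝ) + 1) < N := by exact_mod_cast h6
      have h8 : t < N * τ := by rw [h3]; exact mul_lt_mul_of_pos_right hiN' hτ
      unfold GLU_v
      rw [if_pos h8, h7]
      have e2 : t - ((i + 1 : ℕ) : ℝ) * τ = 0 := by push_cast; rw [h3]; ring
      rw [e2, (h (i + 1) h6).2.init _ ((GLU_phi_prop hτ h (i + 1) h6.le).1 z hz)]
      rfl
    · have h9 : i + 1 = N := by omega
      have h8 : ¬ t < N * τ := by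
        rw [← h9]; push_cast; rw [h3]; exact lt_irrefl _
      unfold GLU_v
      rw [if_neg h8]
      have e2 : t - (N : ℝ) * τ = 0 := by rw [← h9]; push_cast; rw [h3]; ring
      rw [e2, (hLIN n A m κ C hC _ 0).1, ← h9]
      rfl

theorem GLU_last {n : ℕ} {A : E n →L[ℂ] E n} {N : ℕ} {τ : ℝ} {X : ℕ → E n → ℝ → E n}
    (z : E n) {t : ℝ} (h1 : N * τ ≤ t) :
    GLU_v A N τ X z t = fw A (GLU_phi X τ N z) (t - N * τ) := by
  unfold GLU_v
  rw [if_neg (not_lt.2 h1)]

theorem GLU (hLIN : LIN_stmt) : GLU_stmt := by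
  intro n A m κ C hC N τ hτ H X h
  have hAcara : IsCara A (fun z => A z) := by
    refine ⟨A.analyticOnNhd _, by simp, ?_, ?_⟩
    · exact A.fderiv
    · intro z _ hz0
      have h1 := hC.low z
      have h2 : 0 < m * ‖z‖ ^ 2 := mul_pos hC.m0 (pow_pos (norm_pos_iff.2 hz0) 2)
      exact lt_of_lt_of_le h2 h1
  have hfl : ∀ t : ℝ, 0 ≤ t → t < N * τ → ⌊t / τ⌋₊ < N := fun t ht h1 => GLU_floor_lt hτ ht h1
  have hphi := GLU_phi_prop hτ h
  have hNτ : (0 : ℝ) ≤ N * τ := by positivity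
  constructor
  · constructor
    · refine Filter.Eventually.of_forall ?_
      intro t ht
      by_cases h1 : t < N * τ
      · have e : (fun z => hglue A N τ H z t) = H ⌊t / τ⌋₊ := by
          funext z
          unfold hglue
          rw [if_pos h1]
        rw [e]
        exact (h _ (hfl t ht h1)).1
      · have e : (fun z => hglue A N τ H z t) = fun z => A z := by
          funext z
          unfold hglue
          rw [if_neg h1]
        rw [e]
        exact hAcara
    · intro z _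
      have h1 : Measurable (hglue A N τ H z) := by
        unfold hglue
        apply Measurable.ite measurableSet_Iio
        · have h2 : Measurable (fun k : ℕ => H k z) := measurable_from_nat
          exact h2.comp (Nat.measurable_floor.comp (measurable_id.div_const τ))
        · exact measurable_const
      exact h1.aestronglyMeasurable
  -- the derivative in the pieces
  have hder : ∀ z ∈ ball (0 : E n) 1, ∀ i < N, ∀ t ∈ Ico ((i : ℝ) * τ) ((i + 1) * τ),
      HasDerivWithinAt (GLU_v A N τ X z) (-(hglue A N τ H (GLU_v A N τ X z t) t)) (Icc ((i : ℝ) * τ) ((i + 1) * τ)) t := by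
    intro z hz i hi t ht
    have hw := (hphi i hi.le).1 z hz
    have hL := (h i hi).2
    have hiN : (i : ℝ) + 1 ≤ N := by exact_mod_cast hi
    have ht1 : t < N * τ := lt_of_lt_of_le ht.2 (mul_le_mul_of_nonneg_right hiN hτ.le)
    have hs : t - i * τ ∈ Icc (0 : ℝ) τ := ⟨by linarith [ht.1], by nlinarith [ht.2]⟩
    have h1 := hL.der _ hw _ hs
    have h2 : HasDerivWithinAt (fun t : ℝ => t - i * τ) 1 (Icc ((i : ℝ) * τ) ((i + 1) * τ)) t :=
      ((hasDerivAt_id t).sub_const _).hasDerivWithinAt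
    have h3 : MapsTo (fun t : ℝ => t - i * τ) (Icc ((i : ℝ) * τ) ((i + 1) * τ)) (Icc (0 : ℝ) τ) := by
      intro s hs
      exact ⟨by linarith [hs.1], by have := hs.2; dsimp only; nlinarith⟩
    have h4 := HasDerivWithinAt.scomp t (h := fun t : ℝ => t - i * τ) h1 h2 h3
    rw [one_smul] at h4
    have h5 : GLU_v A N τ X z t = X i (GLU_phi X τ i z) (t - i * τ) :=
      GLU_piece hLIN hC hτ h hz hi ht.1 ht.2.le
    have h6 : hglue A N τ H (GLU_v A N τ X z t) t = H i (X i (GLU_phi X τ i z) (t - i * τ)) := by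
      rw [h5]
      unfold hglue
      rw [if_pos ht1, GLU_floor_eq hτ ht.1 ht.2]
    rw [h6]
    apply h4.congr
    · intro s hs
      exact GLU_piece hLIN hC hτ h hz hi hs.1 hs.2
    · exact h5
  have hderN : ∀ z ∈ ball (0 : E n) 1, ∀ t : ℝ, N * τ ≤ t →
      HasDerivWithinAt (GLU_v A N τ X z) (-(hglue A N τ H (GLU_v A N τ X z t) t)) (Ici ((N : ℝ) * τ)) t := by
    intro z hz t ht
    have h1 := (hLIN n A m κ C hC (GLU_phi X τ N z) 0).2.1 (t - N * τ)
    have h2 : HasDerivAt (fun t : ℝ => t - N * τ) 1 t := (hasDerivAt_id t).sub_const _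
    have h4 := HasDerivAt.scomp t (h := fun t : ℝ => t - N * τ) h1 h2
    rw [one_smul] at h4
    have h5 : GLU_v A N τ X z t = fw A (GLU_phi X τ N z) (t - N * τ) := GLU_last z ht
    have h6 : hglue A N τ H (GLU_v A N τ X z t) t = A (fw A (GLU_phi X τ N z) (t - N * τ)) := by
      rw [h5]
      unfold hglue
      rw [if_neg (not_lt.2 ht)]
    rw [h6]
    apply h4.hasDerivWithinAt.congr
    · intro s hs
      exact GLU_last z hs
    · exact h5
  -- right derivatives
  have hright : ∀ z ∈ ball (0 : E n) 1, ∀ t : ℝ, 0 ≤ t →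
      HasDerivWithinAt (GLU_v A N τ X z) (-(hglue A N τ H (GLU_v A N τ X z t) t)) (Ici t) t := by
    intro z hz t ht
    by_cases h1 : t < N * τ
    · have hf := GLU_floor hτ ht
      have h2 := hder z hz _ (hfl t ht h1) t ⟨hf.1, hf.2⟩
      apply h2.mono_of_mem_nhdsWithin
      have : Ico t ((⌊t / τ⌋₊ + 1 : ℝ) * τ) ∈ 𝓝[Ici t] t := Ico_mem_nhdsGE hf.2
      exact mem_of_superset this (fun s hs => ⟨hf.1.trans hs.1, hs.2.le⟩)
    · have h2 := hderN z hz t (not_lt.1 h1)
      exact h2.mono (Ici_subset_Ici.2 (not_lt.1 h1))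
  -- two-sided derivatives
  have htwo : ∀ z ∈ ball (0 : E n) 1, ∀ t : ℝ, 0 ≤ t → (∀ i : ℕ, t ≠ i * τ) →
      HasDerivAt (GLU_v A N τ X z) (-(hglue A N τ H (GLU_v A N τ X z t) t)) t := by
    intro z hz t ht hne
    by_cases h1 : t < N * τ
    · have hf := GLU_floor hτ ht
      have h2 := hder z hz _ (hfl t ht h1) t ⟨hf.1, hf.2⟩
      exact h2.hasDerivAt (Icc_mem_nhds (lt_of_le_of_ne hf.1 (hne _).symm) hf.2)
    · have h2 := hderN z hz t (not_lt.1 h1)
      exact h2.hasDerivAt (Ici_mem_nhds (lt_of_le_of_ne (not_lt.1 h1) (hne _).symm))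
  -- continuity
  have hcpiece : ∀ z ∈ ball (0 : E n) 1, ∀ i < N, ContinuousOn (GLU_v A N τ X z) (Icc ((i : ℝ) * τ) ((i + 1) * τ)) := by
    intro z hz i hi
    have hL := (h i hi).2
    have hw := (hphi i hi.le).1 z hz
    have h1 : ContinuousOn (X i (GLU_phi X τ i z)) (Icc (0 : ℝ) τ) := fun s hs => (hL.der _ hw s hs).continuousWithinAt
    have h2 : ContinuousOn (fun t : ℝ => X i (GLU_phi X τ i z) (t - i * τ)) (Icc ((i : ℝ) * τ) ((i + 1) * τ)) := by
      apply h1.comp (continuous_id.sub continuous_const).continuousOn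
      intro s hs
      show s - (i : ℝ) * τ ∈ Icc (0 : ℝ) τ
      exact ⟨by linarith [hs.1], by nlinarith [hs.2]⟩
    apply h2.congr
    intro s hs
    exact GLU_piece hLIN hC hτ h hz hi hs.1 hs.2
  have hcN : ∀ z ∈ ball (0 : E n) 1, ContinuousOn (GLU_v A N τ X z) (Ici ((N : ℝ) * τ)) := fun z hz t ht =>
    (hderN z hz t ht).continuousWithinAt
  have hcI : ∀ z ∈ ball (0 : E n) 1, ∀ i ≤ N, ContinuousOn (GLU_v A N τ X z) (Icc 0 ((i : ℝ) * τ)) := by
    intro z hz i
    induction i with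
    | zero =>
      intro _
      simp only [Nat.cast_zero, zero_mul, Icc_self]
      exact continuousOn_singleton _ _
    | succ i ih =>
      intro hi
      have h1 := ih (by omega)
      have h2 := hcpiece z hz i (by omega)
      have h3 := h1.union_of_isClosed h2 isClosed_Icc isClosed_Icc
      apply h3.mono
      push_cast
      intro s hs
      rcases le_total s (i * τ) with h4 | h4
      · exact Or.inl ⟨hs.1, h4⟩
      · exact Or.inr ⟨h4, hs.2⟩
  have hcont : ∀ z ∈ ball (0 : E n) 1, ContinuousOn (GLU_v A N τ X z) (Ici 0) := by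
    intro z hz
    have h3 := (hcI z hz N le_rfl).union_of_isClosed (hcN z hz) isClosed_Icc isClosed_Ici
    apply h3.mono
    intro s hs
    rcases le_total s (N * τ) with h4 | h4
    · exact Or.inl ⟨hs, h4⟩
    · exact Or.inr h4
  -- values in the ball
  have hmem : ∀ z ∈ ball (0 : E n) 1, ∀ t : ℝ, 0 ≤ t → GLU_v A N τ X z t ∈ ball (0 : E n) 1 := by
    intro z hz t ht
    by_cases h1 : t < N * τ
    · have hf := GLU_floor hτ ht
      rw [GLU_piece hLIN hC hτ h hz (hfl t ht h1) hf.1 hf.2.le]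
      apply (h _ (hfl t ht h1)).2.mem _ ((hphi _ (hfl t ht h1).le).1 z hz)
      exact ⟨by linarith [hf.1], by nlinarith [hf.2]⟩
    · rw [GLU_last z (not_lt.1 h1)]
      have hw := (hphi N le_rfl).1 z hz
      have h2 := (hLIN n A m κ C hC (GLU_phi X τ N z) 0).2.2.1 (t - N * τ) (by linarith [not_lt.1 h1])
      rw [mem_ball_zero_iff] at hw ⊢
      have h3 : Real.exp (-(m * (t - N * τ))) ≤ 1 := by
        rw [Real.exp_le_one_iff]
        have := mul_nonneg hC.m0.le (sub_nonneg.2 (not_lt.1 h1))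
        linarith
      calc _ ≤ _ := h2
        _ ≤ ‖GLU_phi X τ N z‖ * 1 := mul_le_mul_of_nonneg_left h3 (norm_nonneg _)
        _ < 1 := by linarith
  -- bounds of the derivative
  have hbd : ∀ z ∈ ball (0 : E n) 1, ∃ M : ℝ, 0 ≤ M ∧ ∀ t : ℝ, 0 ≤ t → ‖-(hglue A N τ H (GLU_v A N τ X z t) t)‖ ≤ M := by
    intro z hz
    have hb1 : ∀ i : ℕ, ∃ M : ℝ, 0 ≤ M ∧ (i < N → ∀ t ∈ Icc ((i : ℝ) * τ) ((i + 1) * τ), ‖H i (GLU_v A N τ X z t)‖ ≤ M) := by
      intro i
      by_cases hi : i < N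
      · have hHc : ContinuousOn (H i) (ball (0 : E n) 1) := (h i hi).1.an.continuousOn
        have hc : ContinuousOn (fun t => H i (GLU_v A N τ X z t)) (Icc ((i : ℝ) * τ) ((i + 1) * τ)) := by
          apply hHc.comp (hcpiece z hz i hi)
          intro s hs
          exact hmem z hz s (le_trans (by positivity) hs.1)
        obtain ⟨M, hM⟩ := isCompact_Icc.exists_bound_of_continuousOn hc
        exact ⟨max M 0, le_max_right _ _, fun _ t ht => (hM t ht).trans (le_max_left _ _)⟩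
      · exact ⟨0, le_rfl, fun h' => absurd h' hi⟩
    choose M hM0 hM using hb1
    refine ⟨(∑ i ∈ Finset.range N, M i) + ‖A‖, add_nonneg (Finset.sum_nonneg fun i _ => hM0 i) (norm_nonneg _), ?_⟩
    intro t ht
    rw [norm_neg]
    by_cases h1 : t < N * τ
    · have hf := GLU_floor hτ ht
      have hi := hfl t ht h1
      have e : hglue A N τ H (GLU_v A N τ X z t) t = H ⌊t / τ⌋₊ (GLU_v A N τ X z t) := by
        unfold hglue
        rw [if_pos h1]
      rw [e]
      have h2 := hM ⌊t / τ⌋₊ hi t ⟨hf.1, hf.2.le⟩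
      have h3 : M ⌊t / τ⌋₊ ≤ ∑ i ∈ Finset.range N, M i :=
        Finset.single_le_sum (fun i _ => hM0 i) (Finset.mem_range.2 hi)
      linarith [norm_nonneg A]
    · have e : hglue A N τ H (GLU_v A N τ X z t) t = A (GLU_v A N τ X z t) := by
        unfold hglue
        rw [if_neg h1]
      rw [e]
      have h2 := A.le_opNorm (GLU_v A N τ X z t)
      have h3 := hmem z hz t ht
      rw [mem_ball_zero_iff] at h3
      have h4 : ‖A‖ * ‖GLU_v A N τ X z t‖ ≤ ‖A‖ * 1 := mul_le_mul_of_nonneg_left h3.le (norm_nonneg _)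
      have h5 : 0 ≤ ∑ i ∈ Finset.range N, M i := Finset.sum_nonneg fun i _ => hM0 i
      linarith
  refine ⟨GLU_v A N τ X, ⟨hmem, ?_, ?_, ?_⟩, ?_, ?_⟩
  · -- initial value
    intro z hz
    rcases Nat.eq_zero_or_pos N with hN | hN
    · subst hN
      rw [GLU_last z (by simp)]
      simp only [Nat.cast_zero, zero_mul, sub_zero]
      exact (hLIN n A m κ C hC _ 0).1
    · have h1 := GLU_piece hLIN hC hτ h hz hN (t := 0) (by simp) (by simp [hτ.le])
      rw [h1]
      simp only [Nat.cast_zero, zero_mul, sub_zero]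
      exact (h 0 hN).2.init z hz
  · -- absolutely continuous
    intro z hz T hT
    obtain ⟨M, hM0, hM⟩ := hbd z hz
    have hlip : LipschitzOnWith (Real.toNNReal M) (GLU_v A N τ X z) (uIcc 0 T) := by
      rw [uIcc_of_le hT]
      apply LipschitzOnWith.of_dist_le_mul
      intro s hs t ht
      rw [Real.coe_toNNReal M hM0]
      have key : ∀ s t : ℝ, 0 ≤ s → s ≤ t → ‖GLU_v A N τ X z t - GLU_v A N τ X z s‖ ≤ M * (t - s) := by
        intro s t hs hst
        apply norm_image_sub_le_of_norm_deriv_right_le_segment (f := GLU_v A N τ X z)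
          (f' := fun t => -(hglue A N τ H (GLU_v A N τ X z t) t)) (a := s) (b := t)
        · exact (hcont z hz).mono (fun r hr => hs.trans hr.1)
        · intro r hr
          exact hright z hz r (hs.trans hr.1)
        · intro r hr
          exact hM r (hs.trans hr.1)
        · exact ⟨hst, le_rfl⟩
      rcases le_total s t with h1 | h1
      · rw [dist_comm, dist_eq_norm, dist_comm, Real.dist_eq, abs_of_nonneg (by linarith)]
        exact key s t hs.1 h1
      · rw [dist_eq_norm, Real.dist_eq, abs_of_nonneg (by linarith)]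
        exact key t s ht.1 h1
    exact hlip.absolutelyContinuousOnInterval
  · -- the equation
    intro z hz
    have h0 : (Set.range (fun i : ℕ => (i : ℝ) * τ)).Countable := countable_range _
    have h1 : ∀ᵐ t : ℝ, t ∉ Set.range (fun i : ℕ => (i : ℝ) * τ) := h0.ae_notMem _
    filter_upwards [h1] with t ht ht0
    apply htwo z hz t ht0
    intro i hi
    exact ht ⟨i, hi.symm⟩
  · -- analytic
    intro t ht
    by_cases h1 : t < N * τ
    · have hf := GLU_floor hτ ht
      have hi := hfl t ht h1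
      have e : ∀ z ∈ ball (0 : E n) 1, (fun z => X ⌊t / τ⌋₊ (GLU_phi X τ ⌊t / τ⌋₊ z) (t - ⌊t / τ⌋₊ * τ)) z = GLU_v A N τ X z t := by
        intro z hz
        exact (GLU_piece hLIN hC hτ h hz hi hf.1 hf.2.le).symm
      have h2 : AnalyticOnNhd ℂ (fun z => X ⌊t / τ⌋₊ (GLU_phi X τ ⌊t / τ⌋₊ z) (t - ⌊t / τ⌋₊ * τ)) (ball (0 : E n) 1) :=
        ((h _ hi).2.an (t - ⌊t / τ⌋₊ * τ) ⟨by linarith [hf.1], by nlinarith [hf.2]⟩).comp (hphi _ hi.le).2
          (fun z hz => (hphi _ hi.le).1 z hz)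
      exact h2.congr isOpen_ball e
    · have e : (fun z => GLU_v A N τ X z t) = fun z => (NormedSpace.exp ((-((t - N * τ : ℝ) : ℂ)) • A)) (GLU_phi X τ N z) := by
        funext z
        rw [GLU_last z (not_lt.1 h1)]
        rfl
      rw [e]
      exact (ContinuousLinearMap.analyticOnNhd (NormedSpace.exp ((-((t - N * τ : ℝ) : ℂ)) • A)) univ).comp (hphi N le_rfl).2
        (fun z _ => mem_univ _)
  · intro z hz t ht
    rw [GLU_last z ht, GLU_last z le_rfl, sub_self, (hLIN n A m κ C hC _ 0).1]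

end Pool.Agent.helper64.QF
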